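import Pool.Agent.W438.CY.Stm

/-!
Left swap (project CY, MP_240aa8_pr).
-/

set_option autoImplicit false

namespace Pool.Agent.W986.CY

open Function Pool.Agent.W438.CY

theorem ll : S_LL := by
  intro m C x g β j hL hβ
  have hj : update g j β j = β := Function.update_self j β g
  have hne : ∀ l, l ≠ j → update g j β l = g l := fun l hl => Function.update_of_ne hl β g
  constructor
  · intro H
    refine ⟨?_, ⟨?_, ?_⟩, ?_⟩
    · rintro i k (hI | hO)
      · obtain ⟨hik, hI⟩ := hI
        apply H i k
        left
        refine ⟨hik, fun l h1 h2 => ?_⟩
        have hjl := hI l h1 h2
        rcases eq_or_ne k j with rfl | hkj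
        · have h3 : l ≠ k := ne_of_lt h2
          have h4 : i ≠ k := ne_of_lt hik
          rw [hne l h3, hne i h4, hj]
          omega
        rcases eq_or_ne i j with rfl | hij
        · have h3 : l ≠ i := ne_of_gt h1
          rw [hne l h3, hne k hkj, hj]
          omega
        have h3 : l ≠ j := by
          rintro rfl
          have := hL k h2
          omega
        rw [hne l h3, hne k hkj, hne i hij]
        exact hjl
      · obtain ⟨hik, h1, h2, h3, h4⟩ := hO
        have hkj : k < j := by
          rcases lt_trichotomy k j with h | h | h
          · exact h
          · subst h; omega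
          · have := hL k h; omega
        have hij : i < j := lt_of_le_of_lt hik hkj
        apply H i k
        right
        refine ⟨hik, ?_, ?_, fun l hl => ?_, fun l hl => ?_⟩
        · rw [hne k (ne_of_lt hkj)]; omega
        · rw [hne i (ne_of_lt hij)]; omega
        · have h5 : l ≠ j := ne_of_lt (lt_trans hl hij)
          rw [hne l h5, hne k (ne_of_lt hkj), hne i (ne_of_lt hij)]
          exact h3 l hl
        · rw [hne k (ne_of_lt hkj), hne i (ne_of_lt hij)]
          rcases eq_or_ne l j with rfl | hlj
          · rw [hj]; exact ⟨h1, h2⟩
          · rw [hne l hlj]; exact h4 l hl
    · intro l hl hLl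
      apply H l j
      left
      refine ⟨hl, fun l' h1 h2 => ?_⟩
      rw [hne l (ne_of_lt hl), hne l' (ne_of_lt h2), hj]
      exact hLl l' h1
    · intro l hR hlt
      have hlj : l < j := by
        rcases lt_trichotomy l j with h | h | h
        · exact h
        · subst h; omega
        · have := hL l h; omega
      apply H l j
      right
      refine ⟨le_of_lt hlj, ?_, ?_, fun l' hl' => ?_, fun l' hl' => ?_⟩
      · rw [hj]; omega
      · rw [hne l (ne_of_lt hlj)]; omega
      · have h5 : l' ≠ j := ne_of_lt (lt_trans hl' hlj)
        rw [hne l' h5, hne l (ne_of_lt hlj), hj]
        exact hR l' hl'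
      · have h5 : l' ≠ j := ne_of_gt hl'
        rw [hne l' h5, hne l (ne_of_lt hlj), hj]
        have := hL l' hl'
        omega
    · by_contra hcon
      push Not at hcon
      obtain ⟨hB, hne1⟩ := hcon
      refine H j j (Or.inr ⟨le_refl _, ?_, ?_, fun l hl => ?_, fun l hl => ?_⟩) rfl
      · rw [hj]; omega
      · rw [hj]; omega
      · rw [hj, hne l (ne_of_lt hl)]
        have := hB l
        omega
      · rw [hj, hne l (ne_of_gt hl)]
        have := hB l
        omega
  · rintro ⟨HP, ⟨HN1, HN2⟩, H3⟩
    rintro i k (hI | hO)
    · obtain ⟨hik, hI⟩ := hI
      rcases lt_trichotomy k j with hkj | hkj | hkj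
      · apply HP i k
        left
        refine ⟨hik, fun l h1 h2 => ?_⟩
        have := hI l h1 h2
        rw [hne l (ne_of_lt (lt_trans h2 hkj)), hne k (ne_of_lt hkj),
          hne i (ne_of_lt (lt_trans hik hkj))] at this
        exact this
      · subst hkj
        have hI' : ∀ l, i < l → l < k → g i ≤ g l ∧ β < g l := by
          intro l h1 h2
          have := hI l h1 h2
          rw [hne l (ne_of_lt h2), hj, hne i (ne_of_lt hik)] at this
          exact this
        rcases le_or_gt (g i) (g k) with hle | hgt
        · apply HN1 i hik
          intro l hl
          rcases lt_trichotomy l k with h | h | h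
          · exact hI' l hl h
          · subst h; exact ⟨hle, hβ⟩
          · have := hL l h; omega
        · apply HP i k
          left
          refine ⟨hik, fun l h1 h2 => ?_⟩
          have := hI' l h1 h2
          omega
      · rcases lt_trichotomy i j with hij | hij | hij
        · exfalso
          have := hI j hij hkj
          rw [hj, hne i (ne_of_lt hij), hne k (ne_of_gt hkj)] at this
          have h2 := hL k hkj
          omega
        · subst hij
          apply HP i k
          left
          refine ⟨hik, fun l h1 h2 => ?_⟩
          have := hI l h1 h2
          rw [hne l (ne_of_gt h1), hne k (ne_of_gt hkj), hj] at this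
          have h2 := hL l h1
          omega
        · apply HP i k
          left
          refine ⟨hik, fun l h1 h2 => ?_⟩
          have := hI l h1 h2
          rw [hne l (ne_of_gt (lt_trans hij h1)), hne k (ne_of_gt hkj),
            hne i (ne_of_gt hij)] at this
          exact this
    · obtain ⟨hik, h1, h2, h3, h4⟩ := hO
      rcases lt_trichotomy k j with hkj | hkj | hkj
      · have hij : i < j := lt_of_le_of_lt hik hkj
        have hk : update g j β k = g k := hne k (ne_of_lt hkj)
        have hi : update g j β i = g i := hne i (ne_of_lt hij)
        rw [hk] at h1
        rw [hi] at h2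
        simp only [hk, hi] at h3 h4
        have h5 := h4 j hkj
        rw [hj] at h5
        apply HP i k
        right
        refine ⟨hik, h5.1, h5.2, fun l hl => ?_, fun l hl => ?_⟩
        · have := h3 l hl
          rw [hne l (ne_of_lt (lt_trans hl hij))] at this
          exact this
        · rcases eq_or_ne l j with rfl | hlj
          · omega
          · have := h4 l hl
            rw [hne l hlj] at this
            exact this
      · subst hkj
        rcases lt_or_eq_of_le hik with hij | hij
        · have hi : update g k β i = g i := hne i (ne_of_lt hij)
          rw [hi] at h2
          simp only [hj, hi] at h3 h4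
          apply HN2 i
          · intro l hl
            have := h3 l hl
            rw [hne l (ne_of_lt (lt_trans hl hij))] at this
            exact this
          · omega
        · exfalso
          subst hij
          simp only [hj] at h2 h3 h4
          rcases H3 with H3 | H3
          · apply H3
            intro l
            rcases lt_trichotomy l i with h | h | h
            · have := h3 l h
              rw [hne l (ne_of_lt h)] at this
              exact this.2
            · subst h; exact hβ
            · exact (hL l h).2
          · omega
      · exfalso
        rw [hne k (ne_of_gt hkj)] at h1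
        have := hL k hkj
        omega

end Pool.Agent.W986.CY
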